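import Mathlib
import Pool.Agent.R821.FourMain

/-!
# `F_4(X)` is a `k_R`-space for metrizable `X` with compact derived set
-/

set_option autoImplicit false

open Filter Topology

namespace Pool.Agent.Results.MP_b47bfe_gt.FourIsKR

universe u

/-- The topology of the free topological group `F(X)` in the sense of Markov on the free group on the
set `X`: the finest group topology for which the canonical map `X → F(X)` is continuous. -/
@[reducible] noncomputable def freeTop (X : Type u) [TopologicalSpace X] :
    TopologicalSpace (FreeGroup X) :=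
  (sInf {t : GroupTopology (FreeGroup X) |
    @Continuous X (FreeGroup X) _ t.toTopologicalSpace FreeGroup.of}).toTopologicalSpace

/-- The set `F_n(X)` of the elements of reduced length at most `n`. -/
def Fn (n : ℕ) (X : Type u) : Type u :=
  {g : FreeGroup X // ∃ L : List (X × Bool), FreeGroup.IsReduced L ∧ L.length ≤ n ∧
    FreeGroup.mk L = g}

/-- `F_n(X)` carries the subspace topology of `F(X)`. -/
noncomputable instance (n : ℕ) (X : Type u) [TopologicalSpace X] : TopologicalSpace (Fn n X) :=
  TopologicalSpace.induced (fun g : Fn n X => g.1) (freeTop X)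

/-- A `k_R`-space: a Tychonoff space `Y` such that every function `f : Y → ℝ` whose restriction to each
compact subset of `Y` is continuous is itself continuous. -/
def IsKR (Y : Type u) [TopologicalSpace Y] : Prop :=
  T35Space Y ∧ ∀ f : Y → ℝ, (∀ K : Set Y, IsCompact K → ContinuousOn f K) → Continuous f

theorem isKR_of_frechet {Y : Type u} [TopologicalSpace Y] [T35Space Y]
    (h : ∀ (A : Set Y), ∀ y ∈ closure A, ∃ s : ℕ → Y, (∀ n, s n ∈ A) ∧ Tendsto s atTop (𝓝 y)) :
    IsKR Y := by
  refine ⟨inferInstance, fun f hf => ?_⟩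
  rw [continuous_iff_isClosed]
  intro C hC
  refine isClosed_of_closure_subset fun y hy => ?_
  obtain ⟨s, hs, hsy⟩ := h _ y hy
  have h1 : ContinuousOn f (insert y (Set.range s)) := hf _ hsy.isCompact_insert_range
  have h2 : Tendsto (fun n => f (s n)) atTop (𝓝 (f y)) := by
    have h3 := (h1 y (Set.mem_insert _ _)).tendsto
    refine h3.comp ?_
    rw [tendsto_nhdsWithin_iff]
    exact ⟨hsy, Eventually.of_forall fun n => Set.mem_insert_of_mem _ ⟨n, rfl⟩⟩
  exact hC.mem_of_tendsto h2 (Eventually.of_forall fun n => hs n)

/-- **Positive answer to Q1 of MP_b47bfe.** If `X` is a metrizable space whose set of non-isolated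
points is compact, then `F_4(X)` is a `k_R`-space (it is even Fréchet–Urysohn). -/
theorem result (X : Type u) [TopologicalSpace X] [TopologicalSpace.MetrizableSpace X]
    (hX : IsCompact {x : X | ¬ IsOpen ({x} : Set X)}) : IsKR (Fn 4 X) := by
  classical
  let _ : MetricSpace X := TopologicalSpace.metrizableSpaceMetric X
  let tF : TopologicalSpace (FreeGroup X) := Pool.Agent.R821.FG.topF X
  have hT2 : @T2Space (FreeGroup X) tF := Pool.Agent.R821.FG.topF_t2
  have h35 : @T35Space (Fn 4 X) (TopologicalSpace.induced (fun g : Fn 4 X => g.1) tF) := by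
    have h1 : T35Space (FreeGroup X) := by
      let _ : UniformSpace (FreeGroup X) := IsTopologicalGroup.rightUniformSpace (FreeGroup X)
      have h2 : CompletelyRegularSpace (FreeGroup X) := UniformSpace.toCompletelyRegularSpace
      exact ⟨⟩
    change T35Space {g : FreeGroup X // _}
    infer_instance
  refine isKR_of_frechet fun A a ha => ?_
  have h1 : a.1 ∈ closure ((fun g : Fn 4 X => g.1) '' A) := closure_induced.1 ha
  have h2 : ∀ g ∈ (fun g : Fn 4 X => g.1) '' A, ∃ L : List (X × Bool), L.length ≤ 4 ∧
      FreeGroup.mk L = g := by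
    rintro _ ⟨b, _, rfl⟩
    obtain ⟨L, -, hL, hL2⟩ := b.2
    exact ⟨L, hL, hL2⟩
  obtain ⟨u, huA, hu⟩ := Pool.Agent.R821.FG.four_main hX h2 h1
  choose v hvA hv using huA
  refine ⟨v, hvA, ?_⟩
  rw [nhds_induced, Filter.tendsto_comap_iff]
  exact hu.congr fun n => (hv n).symm

end Pool.Agent.Results.MP_b47bfe_gt.FourIsKR
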